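import Pool.Agent.H93.HQ.Targets

namespace Pool.Agent.H34.HQ
open MeasureTheory Set Filter Topology Pool.Agent.H80.HS Pool.Agent.H93.HQ
open scoped ContDiff ENNReal Nat

/-- A weak form of the Stirling formula. -/
lemma log_factorial_bounds (n : ℕ) (hn : 1 ≤ n) :
    1 + n * Real.log n - n ≤ Real.log (n ! : ℝ) ∧
      Real.log (n ! : ℝ) ≤ 1 + Real.log n + n * Real.log n - n := by
  induction n, hn using Nat.le_induction with
  | base => simp
  | succ n hn ih =>
    have hn' : (1 : ℝ) ≤ n := by exact_mod_cast hn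
    have hn0 : (0 : ℝ) < n := by linarith
    have hf : Real.log ((n + 1)! : ℝ) = Real.log ((n : ℝ) + 1) + Real.log (n ! : ℝ) := by
      rw [Nat.factorial_succ]
      push_cast
      rw [Real.log_mul (by positivity) (by positivity)]
    have h1 : Real.log ((n : ℝ) + 1) - Real.log n ≤ 1 / n := by
      rw [← Real.log_div (by positivity) hn0.ne']
      have := Real.log_le_sub_one_of_pos (x := ((n : ℝ) + 1) / n) (by positivity)
      calc Real.log (((n : ℝ) + 1) / n) ≤ ((n : ℝ) + 1) / n - 1 := this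
        _ = 1 / n := by field_simp; ring
    have h2 : 1 / ((n : ℝ) + 1) ≤ Real.log ((n : ℝ) + 1) - Real.log n := by
      have := Real.log_le_sub_one_of_pos (x := (n : ℝ) / (n + 1)) (by positivity)
      rw [Real.log_div hn0.ne' (by positivity)] at this
      have h3 : (n : ℝ) / (n + 1) - 1 = -(1 / ((n : ℝ) + 1)) := by field_simp; ring
      rw [h3] at this
      linarith
    have h1' : (n : ℝ) * (Real.log ((n : ℝ) + 1) - Real.log n) ≤ 1 := by
      calc (n : ℝ) * (Real.log ((n : ℝ) + 1) - Real.log n) ≤ n * (1 / n) :=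
            mul_le_mul_of_nonneg_left h1 hn0.le
        _ = 1 := by field_simp
    have h2' : 1 ≤ ((n : ℝ) + 1) * (Real.log ((n : ℝ) + 1) - Real.log n) := by
      calc (1 : ℝ) = ((n : ℝ) + 1) * (1 / ((n : ℝ) + 1)) := by field_simp
        _ ≤ _ := mul_le_mul_of_nonneg_left h2 (by positivity)
    rw [hf]
    push_cast
    obtain ⟨ih1, ih2⟩ := ih
    constructor
    · linarith
    · linarith

theorem pf_S0 (h : U_SA) : U_S0 := by
  refine ⟨3, fun n hn => ?_⟩
  have hn' : (1 : ℝ) ≤ n := by exact_mod_cast hn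
  have hn0 : (0 : ℝ) < n := by linarith
  obtain ⟨hf1, hf2⟩ := log_factorial_bounds n hn
  -- the value of Gamma at n
  have hG : Real.log (Real.Gamma n) = Real.log (n ! : ℝ) - Real.log n := by
    have h1 : Real.Gamma ((n : ℝ) + 1) = n ! := Real.Gamma_nat_eq_factorial n
    rw [Real.Gamma_add_one hn0.ne'] at h1
    have hGp : 0 < Real.Gamma n := Real.Gamma_pos_of_pos hn0
    rw [← h1, Real.log_mul hn0.ne' hGp.ne']
    ring
  obtain ⟨hr1, hr2⟩ := h ((n : ℝ) / 2) (by positivity)
  set R : ℝ := Real.Gamma ((n : ℝ) / 2) / Real.Gamma ((n : ℝ) / 2 + 1 / 2) with hR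
  have hRp : 0 < R := lt_of_lt_of_le (by positivity) hr1
  have hlogR1 : -(1 / 2 * Real.log (n / 2)) ≤ Real.log R := by
    have := Real.log_le_log (by positivity) hr1
    rw [one_div, Real.log_inv, Real.log_sqrt (by positivity)] at this
    linarith
  have hlogR2 : Real.log R ≤ 1 / 2 * Real.log (n / 2 + 1 / 2) - Real.log (n / 2) := by
    have h1 := Real.log_le_log hRp hr2
    have h2 : Real.log (Real.sqrt ((n : ℝ) / 2 + 1 / 2) / ((n : ℝ) / 2)) =
        Real.log ((n : ℝ) / 2 + 1 / 2) / 2 - Real.log ((n : ℝ) / 2) := by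
      rw [Real.log_div (by positivity) (by positivity), Real.log_sqrt (by positivity)]
    rw [h2] at h1
    linarith
  have hsg : Real.log (sg n 0) = Real.log 2 + ((n : ℝ) + 1 / 2) * Real.log Real.pi -
      Real.log (Real.Gamma n) + Real.log R := by
    unfold sg
    have e1 : (2 * (n : ℝ) + 0) / 4 = n / 2 := by ring
    have e2 : (2 * (n : ℝ) + 2 + 0) / 4 = n / 2 + 1 / 2 := by ring
    rw [e1, e2, ← hR]
    have hGp : 0 < Real.Gamma n := Real.Gamma_pos_of_pos hn0
    rw [Real.log_mul (by positivity) hRp.ne', Real.log_div (by positivity) hGp.ne',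
      Real.log_mul (by norm_num) (by positivity), Real.log_rpow Real.pi_pos]
  have hmain : Real.log (Real.pi * Real.exp 1 / n) = Real.log Real.pi + 1 - Real.log n := by
    rw [Real.log_div (by positivity) hn0.ne', Real.log_mul Real.pi_pos.ne' (Real.exp_pos 1).ne',
      Real.log_exp]
  have hln : 0 ≤ Real.log n := Real.log_nonneg hn'
  have hl2 : Real.log 2 ≤ Real.log ((n : ℝ) + 1) :=
    Real.log_le_log (by norm_num) (by linarith)
  have hln1 : Real.log n ≤ Real.log ((n : ℝ) + 1) := Real.log_le_log hn0 (by linarith)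
  have hl2' : 0.6931471803 < Real.log 2 := Real.log_two_gt_d9
  have hpi0 : 0 ≤ Real.log Real.pi := Real.log_nonneg (by linarith [Real.pi_gt_three])
  have hpi2 : Real.log Real.pi ≤ 2 := by
    have h4 : Real.log Real.pi ≤ Real.log 4 := Real.log_le_log Real.pi_pos Real.pi_le_four
    have h5 : Real.log 4 = 2 * Real.log 2 := by
      rw [show (4 : ℝ) = 2 ^ (2 : ℕ) by norm_num, Real.log_pow]; norm_num
    have h6 : Real.log 2 < 0.6931471808 := Real.log_two_lt_d9
    linarith
  have hd1 : Real.log ((n : ℝ) / 2) = Real.log n - Real.log 2 :=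
    Real.log_div hn0.ne' (by norm_num)
  have hd2 : Real.log ((n : ℝ) / 2 + 1 / 2) = Real.log ((n : ℝ) + 1) - Real.log 2 := by
    rw [show (n : ℝ) / 2 + 1 / 2 = ((n : ℝ) + 1) / 2 by ring]
    exact Real.log_div (by positivity) (by norm_num)
  rw [hd1] at hlogR1
  rw [hd1, hd2] at hlogR2
  rw [hsg, hmain, hG]
  have hexp : Real.log 2 + ((n : ℝ) + 1 / 2) * Real.log Real.pi -
      (Real.log (n ! : ℝ) - Real.log n) + Real.log R - n * (Real.log Real.pi + 1 - Real.log n) =
      Real.log 2 + 1 / 2 * Real.log Real.pi + Real.log n -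
        (Real.log (n ! : ℝ) - (n * Real.log n - n)) + Real.log R := by ring
  rw [hexp, abs_le]
  constructor
  · linarith
  · linarith

end Pool.Agent.H34.HQ
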