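import Pool.Agent.H93.HQ.Targets

namespace Pool.Agent.H34.HQ
open MeasureTheory Set Filter Topology Pool.Agent.H80.HS Pool.Agent.H93.HQ
open scoped ContDiff ENNReal

/-- The function `sg n` is positive at nonnegative arguments. -/
lemma sg_pos {n : ℕ} (hn : 1 ≤ n) {s : ℝ} (hs : 0 ≤ s) : 0 < sg n s := by
  have hn' : (1 : ℝ) ≤ n := by exact_mod_cast hn
  unfold sg
  have h1 : 0 < Real.Gamma n := Real.Gamma_pos_of_pos (by linarith)
  have h2 : 0 < Real.Gamma ((2 * n + s) / 4) := Real.Gamma_pos_of_pos (by linarith)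
  have h3 : 0 < Real.Gamma ((2 * n + 2 + s) / 4) := Real.Gamma_pos_of_pos (by linarith)
  positivity

/-- The function `sg n` is continuous at nonnegative arguments. -/
lemma sg_continuousAt {n : ℕ} (hn : 1 ≤ n) {s : ℝ} (hs : 0 ≤ s) : ContinuousAt (sg n) s := by
  have hn' : (1 : ℝ) ≤ n := by exact_mod_cast hn
  have hG : ∀ x : ℝ, 0 < x → ContinuousAt Real.Gamma x := fun x hx =>
    (Real.differentiableAt_Gamma (fun m => by
      have : (0 : ℝ) ≤ m := Nat.cast_nonneg m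
      linarith)).continuousAt
  have h2 : ContinuousAt (fun s : ℝ => Real.Gamma ((2 * n + s) / 4)) s :=
    ContinuousAt.comp (f := fun s : ℝ => (2 * n + s) / 4) (g := Real.Gamma)
      (hG _ (by linarith)) (by fun_prop)
  have h3 : ContinuousAt (fun s : ℝ => Real.Gamma ((2 * n + 2 + s) / 4)) s :=
    ContinuousAt.comp (f := fun s : ℝ => (2 * n + 2 + s) / 4) (g := Real.Gamma)
      (hG _ (by linarith)) (by fun_prop)
  have h4 : Real.Gamma ((2 * n + 2 + s) / 4) ≠ 0 := (Real.Gamma_pos_of_pos (by linarith)).ne'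
  have h5 := (h2.div h3 h4).const_mul (2 * Real.pi ^ ((n : ℝ) + 1 / 2) / Real.Gamma n)
  exact h5

theorem pf_M1 : U_M1 := by
  intro n hn
  have hn' : (1 : ℝ) ≤ n := by exact_mod_cast hn
  set Q : ℝ := 2 * (n : ℝ) + 2 with hQ
  have hs0 : 0 < sg n 0 := sg_pos hn le_rfl
  -- the difference tends to zero from the right
  have hx0 : Tendsto (fun p : ℝ => Q - p) (𝓝[<] Q) (𝓝[>] 0) := by
    refine tendsto_nhdsWithin_iff.2 ⟨?_, ?_⟩
    · have : Tendsto (fun p : ℝ => Q - p) (𝓝 Q) (𝓝 (Q - Q)) := by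
        exact (continuous_const.sub continuous_id).tendsto Q
      rw [sub_self] at this
      exact this.mono_left nhdsWithin_le_nhds
    · filter_upwards [self_mem_nhdsWithin] with p hp
      exact sub_pos.2 (show p < Q from hp)
  have hid : Tendsto (fun p : ℝ => p) (𝓝[<] Q) (𝓝 Q) := tendsto_id.mono_left nhdsWithin_le_nhds
  -- the four factors
  have hA : Tendsto (fun p : ℝ => (sg n 0 / (2 * n + 2)) ^ ((2 * n + 2 - p) / (2 * n + 2)))
      (𝓝[<] Q) (𝓝 1) := by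
    have h1 : Tendsto (fun p : ℝ => (2 * (n : ℝ) + 2 - p) / (2 * n + 2)) (𝓝[<] Q) (𝓝 0) := by
      have := (tendsto_nhdsWithin_iff.1 hx0).1.div_const (2 * (n : ℝ) + 2)
      rw [zero_div] at this
      exact this
    have h2 := (tendsto_const_nhds (x := sg n 0 / (2 * (n : ℝ) + 2))).rpow h1
      (Or.inl (by positivity))
    rw [Real.rpow_zero] at h2
    exact h2
  have hB : Tendsto (fun p : ℝ => (2 : ℝ) ^ (-((2 * n + 2 - p) / (p - 1)))) (𝓝[<] Q) (𝓝 1) := by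
    have h1 : Tendsto (fun p : ℝ => (2 * (n : ℝ) + 2 - p) / (p - 1)) (𝓝[<] Q)
        (𝓝 (0 / (Q - 1))) :=
      (tendsto_nhdsWithin_iff.1 hx0).1.div (hid.sub_const 1) (by linarith)
    rw [zero_div] at h1
    have h2 := (tendsto_const_nhds (x := (2 : ℝ))).rpow h1.neg (Or.inl (by norm_num))
    rw [neg_zero, Real.rpow_zero] at h2
    exact h2
  have hC : Tendsto (fun p : ℝ => (sg n p)⁻¹) (𝓝[<] Q) (𝓝 (sg n (2 * n + 2))⁻¹) := by
    have h1 : Tendsto (sg n) (𝓝[<] Q) (𝓝 (sg n Q)) :=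
      (sg_continuousAt hn (by linarith : (0 : ℝ) ≤ Q)).tendsto.mono_left nhdsWithin_le_nhds
    exact h1.inv₀ (sg_pos hn (by linarith)).ne'
  have hD1 : Tendsto (fun p : ℝ => (p - 1) ^ (p - 1)) (𝓝[<] Q)
      (𝓝 ((2 * (n : ℝ) + 1) ^ (2 * n + 1))) := by
    have h1 : Tendsto (fun p : ℝ => (p - 1) ^ (p - 1)) (𝓝[<] Q) (𝓝 ((Q - 1) ^ (Q - 1))) :=
      (hid.sub_const 1).rpow (hid.sub_const 1) (Or.inl (by linarith))
    have h2 : (Q - 1) ^ (Q - 1) = (2 * (n : ℝ) + 1) ^ (2 * n + 1) := by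
      have h3 : Q - 1 = 2 * (n : ℝ) + 1 := by rw [hQ]; ring
      rw [h3, ← Real.rpow_natCast]
      congr 1
      push_cast
      ring
    rwa [h2] at h1
  have hD2 : Tendsto (fun p : ℝ => (Q - p) ^ (Q - p)) (𝓝[<] Q) (𝓝 1) := by
    have h1 : Tendsto (fun x : ℝ => x ^ x) (𝓝[>] 0) (𝓝 1) := by
      have h2 : Tendsto (fun x : ℝ => Real.exp (Real.log x * x)) (𝓝[>] 0) (𝓝 (Real.exp 0)) :=
        (Real.continuous_exp.tendsto 0).comp (by
          simpa only [Real.rpow_one] using tendsto_log_mul_rpow_nhdsGT_zero zero_lt_one)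
      rw [Real.exp_zero] at h2
      refine h2.congr' ?_
      filter_upwards [self_mem_nhdsWithin] with x hx
      rw [Real.rpow_def_of_pos hx]
    exact h1.comp hx0
  have hall := (((hA.mul hB).mul hC).mul (hD1.mul hD2))
  have hlim : (1 : ℝ) * 1 * (sg n (2 * n + 2))⁻¹ * ((2 * (n : ℝ) + 1) ^ (2 * n + 1) * 1) =
      (2 * n + 1) ^ (2 * n + 1) / sg n (2 * n + 2) := by
    rw [div_eq_mul_inv]; ring
  rw [hlim] at hall
  refine hall.congr' ?_
  have hmem : Ioo (1 : ℝ) Q ∈ 𝓝[<] Q := Ioo_mem_nhdsLT (by linarith)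
  filter_upwards [hmem] with p hp
  have hx : 0 < Q - p := sub_pos.2 hp.2
  have hp1 : 0 < p - 1 := sub_pos.2 hp.1
  have key : (Q - p) ^ (2 * n + 1) * ((p - 1) / (Q - p)) ^ (p - 1) =
      (p - 1) ^ (p - 1) * (Q - p) ^ (Q - p) := by
    rw [Real.div_rpow hp1.le hx.le, ← Real.rpow_natCast (Q - p) (2 * n + 1)]
    have h1 : (Q - p) ^ (Q - p) = (Q - p) ^ (((2 * n + 1 : ℕ) : ℝ)) / (Q - p) ^ (p - 1) := by
      rw [← Real.rpow_sub hx]
      congr 1
      rw [hQ]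
      push_cast
      ring
    rw [h1]
    ring
  unfold LB2
  rw [← hQ]
  calc (sg n 0 / Q) ^ ((Q - p) / Q) * 2 ^ (-((Q - p) / (p - 1))) * (sg n p)⁻¹ *
        ((p - 1) ^ (p - 1) * (Q - p) ^ (Q - p))
      = (sg n 0 / Q) ^ ((Q - p) / Q) * 2 ^ (-((Q - p) / (p - 1))) * (sg n p)⁻¹ *
        ((Q - p) ^ (2 * n + 1) * ((p - 1) / (Q - p)) ^ (p - 1)) := by rw [key]
    _ = _ := by ring

end Pool.Agent.H34.HQ
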