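import Pool.Agent.H93.HQ.Targets2

/-! # Board HQ, module N5: the upper bound near the critical exponent -/

namespace Pool.Agent.H34.HQ
open MeasureTheory Set Filter Topology Pool.Agent.H80.HS Pool.Agent.H93.HQ
open scoped ContDiff ENNReal

/-- The function `sg n` is positive at nonnegative arguments. -/
lemma sg_pos5 {n : ℕ} (hn : 1 ≤ n) {s : ℝ} (hs : 0 ≤ s) : 0 < sg n s := by
  have hn' : (1 : ℝ) ≤ n := by exact_mod_cast hn
  unfold sg
  have h1 : 0 < Real.Gamma n := Real.Gamma_pos_of_pos (by linarith)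
  have h2 : 0 < Real.Gamma ((2 * n + s) / 4) := Real.Gamma_pos_of_pos (by linarith)
  have h3 : 0 < Real.Gamma ((2 * n + 2 + s) / 4) := Real.Gamma_pos_of_pos (by linarith)
  positivity

lemma neg_mul_log_le5 {y : ℝ} (hy0 : 0 < y) : -(y * Real.log y) ≤ 1 := by
  have h1 := Real.log_le_sub_one_of_pos (show 0 < 1 / y by positivity)
  rw [Real.log_div one_ne_zero hy0.ne', Real.log_one, zero_sub] at h1
  have h2 : y * (-Real.log y) ≤ y * (1 / y - 1) := mul_le_mul_of_nonneg_left h1 hy0.le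
  have h3 : y * (1 / y - 1) = 1 - y := by field_simp
  linarith

/-- The second summand of `DD` is small compared with the first one. -/
lemma core_a (Q p y sp s1 B : ℝ) (hQ : 4 ≤ Q) (hp : p = Q - y) (hy0 : 0 < y) (hy1 : y ≤ 1)
    (hsp : 0 < sp) (hs1 : 0 < s1) (h13 : s1 ≤ B) (hB : B ≤ 3 * sp) :
    s1 * B ^ (-(1 / Q)) ≤
      (sp * (p - 1) / y) ^ (1 - 1 / p) * B ^ (y / (Q * p)) * (3 * (y / (p - 1)) ^ (1 - 1 / p)) := by
  have hp3 : 3 ≤ p := by linarith
  have hB0 : 0 < B := lt_of_lt_of_le hs1 h13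
  have hp0 : 0 < p := by linarith
  have hQ0 : 0 < Q := by linarith
  have hpm : 0 < p - 1 := by linarith
  have he0 : 0 ≤ 1 - 1 / p := by
    have : 1 / p ≤ 1 := by rw [div_le_one hp0]; linarith
    linarith
  have he1 : 1 - 1 / p ≤ 1 := by
    have : 0 < 1 / p := by positivity
    linarith
  have e1 : (sp * (p - 1) / y) ^ (1 - 1 / p) * (y / (p - 1)) ^ (1 - 1 / p) =
      sp ^ (1 - 1 / p) := by
    rw [← Real.mul_rpow (by positivity) (by positivity)]
    congr 1
    field_simp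
  have e2 : (sp * (p - 1) / y) ^ (1 - 1 / p) * B ^ (y / (Q * p)) *
      (3 * (y / (p - 1)) ^ (1 - 1 / p)) = 3 * sp ^ (1 - 1 / p) * B ^ (y / (Q * p)) := by
    calc _ = 3 * ((sp * (p - 1) / y) ^ (1 - 1 / p) * (y / (p - 1)) ^ (1 - 1 / p)) *
          B ^ (y / (Q * p)) := by ring
      _ = _ := by rw [e1]
  rw [e2]
  have e3 : B ^ (1 : ℝ) * B ^ (-(1 / Q)) = B ^ (1 - 1 / p) * B ^ (y / (Q * p)) := by
    rw [← Real.rpow_add hB0, ← Real.rpow_add hB0]
    congr 1
    rw [hp]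
    have h4 : Q - y ≠ 0 := by rw [← hp]; exact hp0.ne'
    field_simp
    ring
  have i1 : s1 * B ^ (-(1 / Q)) ≤ B ^ (1 : ℝ) * B ^ (-(1 / Q)) := by
    rw [Real.rpow_one]
    exact mul_le_mul_of_nonneg_right h13 (Real.rpow_nonneg hB0.le _)
  have i2 : B ^ (1 - 1 / p) ≤ 3 * sp ^ (1 - 1 / p) := by
    have j1 : B ^ (1 - 1 / p) ≤ (3 * sp) ^ (1 - 1 / p) := Real.rpow_le_rpow hB0.le hB he0
    have j2 : (3 * sp) ^ (1 - 1 / p) = 3 ^ (1 - 1 / p) * sp ^ (1 - 1 / p) :=
      Real.mul_rpow (by norm_num) hsp.le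
    have j3 : (3 : ℝ) ^ (1 - 1 / p) ≤ 3 := by
      have := Real.rpow_le_rpow_of_exponent_le (show (1 : ℝ) ≤ 3 by norm_num) he1
      rwa [Real.rpow_one] at this
    rw [j2] at j1
    exact j1.trans (mul_le_mul_of_nonneg_right j3 (Real.rpow_nonneg hsp.le _))
  calc s1 * B ^ (-(1 / Q)) ≤ B ^ (1 : ℝ) * B ^ (-(1 / Q)) := i1
    _ = B ^ (1 - 1 / p) * B ^ (y / (Q * p)) := e3
    _ ≤ 3 * sp ^ (1 - 1 / p) * B ^ (y / (Q * p)) :=
      mul_le_mul_of_nonneg_right i2 (Real.rpow_nonneg hB0.le _)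

/-- The logarithm of the constant of the capacity inequality. -/
lemma core_b (Q p y sp s1 B : ℝ) (hQ : 4 ≤ Q) (hp : p = Q - y) (hy0 : 0 < y) (hy1 : y ≤ 1)
    (hsp : 0 < sp) (hs1 : 0 < s1) (h13 : s1 ≤ B) (hB : B ≤ 3 * sp) :
    p * Real.log (sp⁻¹ * ((sp * (p - 1) / y) ^ (1 - 1 / p) * B ^ (y / (Q * p)) +
      s1 * B ^ (-(1 / Q)))) ≤
    -Real.log sp + (p - 1) * Real.log ((p - 1) / y) + y / Q * Real.log B +
      p * (3 * (y / (p - 1)) ^ (1 - 1 / p)) := by
  have hp3 : 3 ≤ p := by linarith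
  have hB0 : 0 < B := lt_of_lt_of_le hs1 h13
  have hp0 : 0 < p := by linarith
  have hQ0 : 0 < Q := by linarith
  have hpm : 0 < p - 1 := by linarith
  have hca := core_a Q p y sp s1 B hQ hp hy0 hy1 hsp hs1 h13 hB
  obtain ⟨R, hR⟩ : ∃ R : ℝ, R = 3 * (y / (p - 1)) ^ (1 - 1 / p) := ⟨_, rfl⟩
  obtain ⟨T, hT⟩ : ∃ T : ℝ, T = (sp * (p - 1) / y) ^ (1 - 1 / p) * B ^ (y / (Q * p)) := ⟨_, rfl⟩
  rw [← hR, ← hT] at hca
  rw [← hR, ← hT]
  have hR0 : 0 < R := by rw [hR]; positivity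
  have hT0 : 0 < T := by rw [hT]; positivity
  have hS0 : 0 < s1 * B ^ (-(1 / Q)) := by positivity
  have i1 : Real.log (sp⁻¹ * (T + s1 * B ^ (-(1 / Q)))) ≤ Real.log (sp⁻¹ * (T * (1 + R))) := by
    apply Real.log_le_log (by positivity)
    apply mul_le_mul_of_nonneg_left _ (by positivity)
    linarith
  have i2 : Real.log (sp⁻¹ * (T * (1 + R))) = -Real.log sp + (Real.log T + Real.log (1 + R)) := by
    rw [Real.log_mul (by positivity) (by positivity), Real.log_inv,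
      Real.log_mul hT0.ne' (by positivity)]
  have i3 : Real.log (1 + R) ≤ R := by
    have := Real.log_le_sub_one_of_pos (show 0 < 1 + R by positivity)
    linarith
  have i4 : p * Real.log T = (p - 1) * (Real.log sp + Real.log ((p - 1) / y)) +
      y / Q * Real.log B := by
    rw [hT, Real.log_mul (by positivity) (by positivity), Real.log_rpow (by positivity),
      Real.log_rpow hB0, mul_div_assoc, Real.log_mul hsp.ne' (by positivity)]
    field_simp
  have i5 : p * Real.log (sp⁻¹ * (T + s1 * B ^ (-(1 / Q)))) ≤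
      p * (-Real.log sp + (Real.log T + R)) := by
    apply mul_le_mul_of_nonneg_left _ hp0.le
    linarith
  have i6 : p * (-Real.log sp + (Real.log T + R)) =
      -(p * Real.log sp) + p * Real.log T + p * R := by ring
  rw [i6, i4] at i5
  refine i5.trans (le_of_eq ?_)
  ring

/-- The error term coming from the second summand. -/
lemma core_c (Q p y : ℝ) (hQ : 4 ≤ Q) (hp : p = Q - y) (hy0 : 0 < y) (hy1 : y ≤ 1) :
    p * (3 * (y / (p - 1)) ^ (1 - 1 / p)) ≤ 41 * y ^ ((Q - 1) / Q) := by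
  have hp3 : 3 ≤ p := by linarith
  have hp0 : 0 < p := by linarith
  have hQ0 : 0 < Q := by linarith
  have hpm : 0 < p - 1 := by linarith
  have hexp : Real.exp 1 ≤ 3 := by
    have := Real.exp_one_lt_d9
    linarith
  have a1 : (y / (p - 1)) ^ (1 - 1 / p) = y ^ (1 - 1 / p) * ((p - 1) ^ (1 / p) / (p - 1)) := by
    rw [Real.div_rpow hy0.le hpm.le, Real.rpow_sub hpm, Real.rpow_one]
    have : 0 < (p - 1) ^ (1 / p) := by positivity
    field_simp
  have a2 : (p - 1) ^ (1 / p) ≤ 3 := by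
    rw [Real.rpow_def_of_pos hpm]
    have h1 : Real.log (p - 1) * (1 / p) ≤ 1 := by
      rw [mul_one_div, div_le_one hp0]
      have := Real.log_le_sub_one_of_pos hpm
      linarith
    exact (Real.exp_le_exp.2 h1).trans hexp
  have a3 : p * ((p - 1) ^ (1 / p) / (p - 1)) ≤ 9 / 2 := by
    have h1 : (p - 1) ^ (1 / p) / (p - 1) ≤ 3 / (p - 1) := div_le_div_of_nonneg_right a2 hpm.le
    have h2 : p * ((p - 1) ^ (1 / p) / (p - 1)) ≤ p * (3 / (p - 1)) :=
      mul_le_mul_of_nonneg_left h1 hp0.le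
    have h3 : p * (3 / (p - 1)) ≤ 9 / 2 := by
      rw [← mul_div_assoc, div_le_iff₀ hpm]
      linarith
    linarith
  have a4 : y ^ (1 - 1 / p) ≤ 3 * y ^ ((Q - 1) / Q) := by
    have h1 : y ^ (1 - 1 / p) = y ^ ((Q - 1) / Q) * Real.exp (-(y * Real.log y) / (p * Q)) := by
      rw [Real.rpow_def_of_pos hy0, Real.rpow_def_of_pos hy0, ← Real.exp_add]
      congr 1
      rw [hp]
      have h4 : Q - y ≠ 0 := by rw [← hp]; exact hp0.ne'
      field_simp
      ring
    have h2 : -(y * Real.log y) / (p * Q) ≤ 1 := by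
      rw [div_le_one (by positivity)]
      have h3 := neg_mul_log_le5 hy0
      have h4 : (1 : ℝ) ≤ p * Q := by
        calc (1 : ℝ) ≤ 3 * 4 := by norm_num
          _ ≤ p * Q := mul_le_mul hp3 hQ (by norm_num) hp0.le
      linarith
    rw [h1]
    have h5 : Real.exp (-(y * Real.log y) / (p * Q)) ≤ 3 := (Real.exp_le_exp.2 h2).trans hexp
    calc y ^ ((Q - 1) / Q) * Real.exp (-(y * Real.log y) / (p * Q)) ≤ y ^ ((Q - 1) / Q) * 3 :=
          mul_le_mul_of_nonneg_left h5 (Real.rpow_nonneg hy0.le _)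
      _ = 3 * y ^ ((Q - 1) / Q) := by ring
  have hz : 0 ≤ y ^ ((Q - 1) / Q) := Real.rpow_nonneg hy0.le _
  calc p * (3 * (y / (p - 1)) ^ (1 - 1 / p))
      = 3 * (y ^ (1 - 1 / p) * (p * ((p - 1) ^ (1 / p) / (p - 1)))) := by rw [a1]; ring
    _ ≤ 3 * ((3 * y ^ ((Q - 1) / Q)) * (9 / 2)) := by
        apply mul_le_mul_of_nonneg_left _ (by norm_num)
        apply mul_le_mul a4 a3 (by positivity) (by positivity)
    _ ≤ 41 * y ^ ((Q - 1) / Q) := by linarith

/-- The logarithm of the first factor. -/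
lemma core_d (Q p y : ℝ) (hQ : 4 ≤ Q) (hp : p = Q - y) (hy0 : 0 < y) (hy1 : y ≤ 1) :
    y / Q * Real.log (Q * p / y * 2 ^ p * Real.log 2) ≤ 3 * y + y ^ ((Q - 1) / Q) := by
  have hp3 : 3 ≤ p := by linarith
  have hp0 : 0 < p := by linarith
  have hQ0 : 0 < Q := by linarith
  have hl2 : 0 < Real.log 2 := Real.log_pos (by norm_num)
  have hl2' : Real.log 2 ≤ 1 := by
    have := Real.log_two_lt_d9
    linarith
  have e1 : Real.log (Q * p / y * 2 ^ p * Real.log 2) =
      Real.log Q + Real.log p - Real.log y + p * Real.log 2 + Real.log (Real.log 2) := by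
    rw [Real.log_mul (by positivity) hl2.ne', Real.log_mul (by positivity) (by positivity),
      Real.log_div (by positivity) hy0.ne', Real.log_mul hQ0.ne' hp0.ne',
      Real.log_rpow (by norm_num)]
  have i1 : Real.log (Real.log 2) ≤ 0 := Real.log_nonpos hl2.le hl2'
  have i2 : Real.log Q ≤ Q - 1 := Real.log_le_sub_one_of_pos hQ0
  have i3 : Real.log p ≤ p - 1 := Real.log_le_sub_one_of_pos hp0
  have i4 : p * Real.log 2 ≤ p * 1 := mul_le_mul_of_nonneg_left hl2' hp0.le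
  have i5 : -(1 / Q * Real.log y) ≤ y ^ (-(1 / Q)) := by
    have h1 := Real.log_le_sub_one_of_pos (Real.rpow_pos_of_pos hy0 (-(1 / Q)))
    rw [Real.log_rpow hy0] at h1
    linarith
  have i6 : y * -(1 / Q * Real.log y) ≤ y * y ^ (-(1 / Q)) :=
    mul_le_mul_of_nonneg_left i5 hy0.le
  have e2 : y * y ^ (-(1 / Q)) = y ^ ((Q - 1) / Q) := by
    nth_rewrite 1 [← Real.rpow_one y]
    rw [← Real.rpow_add hy0]
    congr 1
    field_simp
    ring
  rw [e2] at i6
  have e3 : y / Q * Real.log (Q * p / y * 2 ^ p * Real.log 2) =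
      y / Q * (Real.log Q + Real.log p + p * Real.log 2 + Real.log (Real.log 2)) +
        y * -(1 / Q * Real.log y) := by
    rw [e1]
    field_simp
    ring
  rw [e3]
  have i7 : y / Q * (Real.log Q + Real.log p + p * Real.log 2 + Real.log (Real.log 2)) ≤
      y / Q * (3 * Q) := by
    apply mul_le_mul_of_nonneg_left _ (by positivity)
    linarith
  have e4 : y / Q * (3 * Q) = 3 * y := by field_simp
  linarith

theorem pf_N5 (h1 : U_SL) (h2 : U_S0) (h3 : U_S1) : U_N5 := by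
  obtain ⟨A, hA⟩ := h2
  refine ⟨|A| + 94, fun n hn p hp1 hp2 => ?_⟩
  have hn' : (1 : ℝ) ≤ n := by exact_mod_cast hn
  have hn0 : (0 : ℝ) < n := by linarith
  obtain ⟨Q, hQ⟩ : ∃ Q : ℝ, Q = 2 * (n : ℝ) + 2 := ⟨_, rfl⟩
  obtain ⟨y, hy⟩ : ∃ y : ℝ, y = 2 * (n : ℝ) + 2 - p := ⟨_, rfl⟩
  have hQ4 : 4 ≤ Q := by linarith
  have hQ0 : 0 < Q := by linarith
  have hpQ : p = Q - y := by linarith
  have hy0 : 0 < y := by linarith
  have hy1 : y ≤ 1 := by linarith
  have hp3 : 3 ≤ p := by linarith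
  have hp0 : 0 < p := by linarith
  have hpm : 0 < p - 1 := by linarith
  have hsp : 0 < sg n p := sg_pos5 hn hp0.le
  have hs1 : 0 < sg n (p - 1) := sg_pos5 hn hpm.le
  have hB : 0 < sg n 0 := sg_pos5 hn le_rfl
  have hsQ : 0 < sg n (2 * n + 2) := sg_pos5 hn (by linarith)
  have hl2 : 0 < Real.log 2 := Real.log_pos (by norm_num)
  have c1 : sg n (p - 1) ≤ sg n 0 := (h3 n hn (p - 1) hpm.le (by linarith)).1
  have c2 : sg n 0 ≤ 3 * sg n p := (h3 n hn p hp0.le (by linarith)).2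
  have c3 : sg n (2 * n + 2) ≤ sg n p := (h1 n hn p hp1 (by linarith)).1
  -- the two factors
  obtain ⟨D, hD⟩ : ∃ D : ℝ, D = DD n p (sg n 0) := ⟨_, rfl⟩
  have hD' : D = (sg n p)⁻¹ * ((sg n p * (p - 1) / y) ^ (1 - 1 / p) *
      sg n 0 ^ (y / (Q * p)) + sg n (p - 1) * sg n 0 ^ (-(1 / Q))) := by
    rw [hD, hQ, hy]
    rfl
  have hD0 : 0 < D := by rw [hD']; positivity
  have hU : UB n p (sg n 0) = (Q * p / y * 2 ^ p * Real.log 2) ^ (y / Q) * D ^ p := by
    unfold UB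
    rw [← hD, ← hy, ← hQ]
  have hX0 : 0 < Q * p / y * 2 ^ p * Real.log 2 := by positivity
  have hU0 : 0 < UB n p (sg n 0) := by rw [hU]; positivity
  refine ⟨hU0, ?_⟩
  have e1 : Real.log (UB n p (sg n 0)) =
      y / Q * Real.log (Q * p / y * 2 ^ p * Real.log 2) + p * Real.log D := by
    rw [hU, Real.log_mul (by positivity) (by positivity), Real.log_rpow hX0, Real.log_rpow hD0]
  have i1 := core_d Q p y hQ4 hpQ hy0 hy1
  have i2 := core_b Q p y (sg n p) (sg n (p - 1)) (sg n 0) hQ4 hpQ hy0 hy1 hsp hs1 c1 c2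
  have i3 := core_c Q p y hQ4 hpQ hy0 hy1
  rw [← hD'] at i2
  -- the size of `sg n 0`
  have hL2 : Real.log 2 ≤ Real.log ((n : ℝ) + 1) := Real.log_le_log (by norm_num) (by linarith)
  obtain ⟨L, hL⟩ : ∃ L : ℝ, L = Real.log ((n : ℝ) + 1) := ⟨_, rfl⟩
  rw [← hL] at hL2
  have hl2' : (1 : ℝ) / 2 ≤ Real.log 2 := by
    have := Real.log_two_gt_d9
    linarith
  have hL1 : (1 : ℝ) ≤ 2 * L := by linarith
  have hL0 : 0 < L := by linarith
  have i4 : y / Q * Real.log (sg n 0) ≤ 2 * y + |A| * L * y := by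
    have j1 := (abs_le.1 (hA n hn)).2
    rw [← hL] at j1
    have j2 : Real.log (Real.pi * Real.exp 1 / n) ≤ 4 := by
      rw [Real.log_div (by positivity) hn0.ne', Real.log_mul Real.pi_pos.ne' (Real.exp_pos 1).ne',
        Real.log_exp]
      have k1 : 0 ≤ Real.log n := Real.log_nonneg hn'
      have k2 := Real.log_le_sub_one_of_pos Real.pi_pos
      have k3 := Real.pi_le_four
      linarith
    have j3 : (n : ℝ) * Real.log (Real.pi * Real.exp 1 / n) ≤ n * 4 :=
      mul_le_mul_of_nonneg_left j2 hn0.le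
    have j4 : A * L ≤ |A| * L := mul_le_mul_of_nonneg_right (le_abs_self A) hL0.le
    have j5 : Real.log (sg n 0) ≤ 4 * n + |A| * L := by linarith
    have j6 : y / Q * Real.log (sg n 0) ≤ y / Q * (4 * n + |A| * L) :=
      mul_le_mul_of_nonneg_left j5 (by positivity)
    have j7 : y / Q * (4 * n + |A| * L) ≤ 2 * y + |A| * L * y := by
      rw [div_mul_eq_mul_div, div_le_iff₀ hQ0]
      have k1 : 0 ≤ |A| * L * y := by positivity
      have k2 : |A| * L * y * 1 ≤ |A| * L * y * Q := mul_le_mul_of_nonneg_left (by linarith) k1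
      have k3 : y * (4 * n) ≤ y * (2 * Q) := mul_le_mul_of_nonneg_left (by linarith) hy0.le
      calc y * (4 * n + |A| * L) = y * (4 * n) + |A| * L * y * 1 := by ring
        _ ≤ y * (2 * Q) + |A| * L * y * Q := add_le_add k3 k2
        _ = (2 * y + |A| * L * y) * Q := by ring
    linarith
  -- the main terms
  have i5 : -Real.log (sg n p) ≤ -Real.log (sg n (2 * n + 2)) := by
    have := Real.log_le_log hsQ c3
    linarith
  have i6 : (p - 1) * Real.log ((p - 1) / y) ≤ (p - 1) * Real.log ((2 * n + 1) / y) := by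
    apply mul_le_mul_of_nonneg_left _ hpm.le
    apply Real.log_le_log (by positivity)
    exact div_le_div_of_nonneg_right (by linarith) hy0.le
  have e2 : MC n p = (p - 1) * Real.log ((2 * n + 1) / y) - Real.log (sg n (2 * n + 2)) := by
    unfold MC
    rw [← hy]
  have e3 : (2 * (n : ℝ) + 1) / (2 * n + 2) = (Q - 1) / Q := by
    rw [hQ]
    congr 1
    ring
  rw [e2, e3, ← hy, ← hL, e1]
  obtain ⟨Y, hY⟩ : ∃ Y : ℝ, Y = y ^ ((Q - 1) / Q) := ⟨_, rfl⟩
  rw [← hY] at i1 i3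
  rw [← hY]
  have hyY : y ≤ Y := by
    rw [hY]
    have h4 : (Q - 1) / Q ≤ 1 := by
      rw [div_le_one hQ0]
      linarith
    have := Real.rpow_le_rpow_of_exponent_ge hy0 hy1 h4
    rwa [Real.rpow_one] at this
  have hY0 : 0 < Y := lt_of_lt_of_le hy0 hyY
  have i7 : |A| * L * y ≤ |A| * L * Y := mul_le_mul_of_nonneg_left hyY (by positivity)
  have i8 : 47 * Y ≤ 94 * L * Y := by
    have : 47 * 1 * Y ≤ 47 * (2 * L) * Y := by
      apply mul_le_mul_of_nonneg_right _ hY0.le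
      linarith
    linarith
  have e4 : (|A| + 94) * L * Y = |A| * L * Y + 94 * L * Y := by ring
  rw [e4]
  linarith

end Pool.Agent.H34.HQ
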